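import Pool.Agent.K4H65.EP.Main

set_option autoImplicit false

namespace Pool.Agent.Results.MP_2b9663_nt.ArbitraryPowers

open NumberField Pool.Agent.K4H65.EP

/-- Let `Y_1, …, Y_r` be smooth projective varieties over a number field `K`, of dimensions
`d_1, …, d_r`.  For `n ∈ ℕ^r` let `Y^n` be the product of the `Y_s^{n_s}`, of dimension `D = dim d n`,
and for `j ∈ ℤ` let `m(n, j)` be the order at the edge point of `L(H^{D+j}(Y^n), s)`, if this function
has a meromorphic continuation there (`Ord Y d n j m` says that `m(n, j)` exists and is `m`).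

(1) The function `(n, j) ↦ -m(n, j)` is of positive type: `∑ c_x c_y m(n_x + n_y, j_x - j_y) ≤ 0`.
(2) `|m(2n, j)| ≤ -m(2n, 0)`: the function of the middle cohomology of `Y^{2n} = Y^n × Y^n` does not
vanish at the edge.
(3) `∑_j m(n, j)² ≤ -m(2n, 0)`, the sum over any finite set of `j` such that `m(n, j)` exists.
(4) If the `Y_s` are geometrically connected and `D > 0`, then `m(2k n, 0) ≤ -binom(2k, k)`: the
function of the middle cohomology of `(Y^n)^{2k}` has a pole of order at least `binom(2k, k)`. -/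
theorem result {K : Type} [Field K] [NumberField K] {r : ℕ} {a : Fin r → ℕ}
    (Y : (s : Fin r) → Set (MvPolynomial (Fin (a s)) (𝓞 K))) (d : Fin r → ℕ)
    (hY : ∀ s, IsSmooth (Y s) (d s)) :
    (∀ (l : ℕ) (n : Fin l → Fin r → ℕ) (j : Fin l → ℤ) (m : Fin l → Fin l → ℤ),
      (∀ x y, Ord Y d (n x + n y) (j x - j y) (m x y)) →
      ∀ c : Fin l → ℝ, ∑ x, ∑ y, c x * c y * m x y ≤ 0) ∧
    (∀ (n : Fin r → ℕ) (j m m' : ℤ), Ord Y d (2 • n) 0 m → Ord Y d (2 • n) j m' → |m'| ≤ -m) ∧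
    (∀ (n : Fin r → ℕ) (m : ℤ) (J : Finset ℤ) (μ : ℤ → ℤ), Ord Y d (2 • n) 0 m →
      (∀ j ∈ J, Ord Y d n j (μ j)) → ∑ j ∈ J, μ j ^ 2 ≤ -m) ∧
    ((∀ s, IsConn (Y s) (d s)) → ∀ (n : Fin r → ℕ) (k : ℕ) (m : ℤ), 0 < dim d n →
      Ord Y d ((2 * k) • n) 0 m → m ≤ -((2 * k).choose k : ℤ)) := by
  refine ⟨fun l n j m h c => main_psd hY n j m h c, fun n j m m' h h' => ?_,
    fun n m J μ h h' => ?_, fun hC n k m hn h => main_mid hY hC hn h⟩
  · rw [two_smul] at h h'
    exact main_abs hY h h'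
  · rw [two_smul] at h
    exact main_sq hY J μ h h'

end Pool.Agent.Results.MP_2b9663_nt.ArbitraryPowers
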