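import Pool.Agent.K4H20.FM.Main

/-!
# The orders at the edge of pairwise disjoint forms of a variety

`X` is a smooth projective variety over a number field `K` (for example `K = ℚ`; `X` may be
disconnected), `i` an integer and `s₀ = i/2 + 1`; `Γ` is any finite group of automorphisms of `X` over
the algebraic closure, stable under the Galois group, and `X_ξ` are the forms of `X` given by cocycles
`ξ` of the Galois group with values in `Γ`.  Nothing is assumed about the automorphy of `H^i(X)`.  The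
definitions are in `Pool.Agent.K4H20.FM.Defs` and `Pool.Agent.W353.EF.Defs`.
-/

set_option autoImplicit false

namespace Pool.Agent.Results.MP_2b9663_nt.DisjointForms

open NumberField IsDedekindDomain Filter Topology Polynomial
open Pool.Agent.W353.EF (size HasOrder)
open Pool.Agent.K4H20.FM

/-- **Disjoint forms.**  Let `X` be a projective variety of dimension `d` over a number field `K`,
`0 ≤ i ≤ 2d`, `N` the `i`-th Betti number, `Γ` a finite group of automorphisms of `X` over the algebraic
closure of `K`, stable under the Galois group.  Let `X_k = X_{ξ_k}`, `k` in a finite set, be forms of `X`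
given by cocycles with values in `Γ`, pairwise disjoint: for `k ≠ l` the Galois group acts transitively
on the `#Γ` isomorphisms from `X_l` to `X_k` given by `Γ`, that is, for every `γ` in `Γ` there is a `σ`
with `ξ_k(σ) = γ ξ_l(σ)`.

Write `x_k(ε) = log |L(H^i(X_k), s₀ + ε)| / log(1/ε)` and `x₀(ε)` for the same quotient for
`L(H^i(X / Γ), s)`.  Then `∑ (x_k(ε) - x₀(ε))² ≤ (#Γ - 1) N² + η` for all `η > 0` and all small `ε > 0` (no
continuation is assumed here).  If the functions have meromorphic continuations of orders `m_k` and `m₀`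
at `s₀`, then `∑ (m_k - m₀)² ≤ (#Γ - 1) N²`: all but at most `(#Γ - 1) N²` members of a family of pairwise
disjoint forms have the order `m₀`, so they vanish at `s₀` if and only if `L(H^i(X / Γ), s)` does. -/
theorem result (K : Type) [Field K] [NumberField K] (n : ℕ) (X : Set (MvPolynomial (Fin n) (𝓞 K)))
    (Γ : Type) [Group Γ] [Finite Γ] (a : AutGroup X Γ) (d i N : ℕ) (hi : i ≤ 2 * d)
    (κ : Type) [Fintype κ] (ξ : κ → Gal(AlgebraicClosure K/K) → Γ) (hξ : ∀ k, IsCocycle a (ξ k))
    (hdis : ∀ k l, k ≠ l → ∀ γ : Γ, ∃ σ, ξ k σ = γ * ξ l σ)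
    (B : κ → HeightOneSpectrum (𝓞 K) → ℂ[X]) (B₀ : HeightOneSpectrum (𝓞 K) → ℂ[X])
    (hB : ∀ k, IsEulerSystem a d i N (ξ k) ⊥ (B k))
    (hB₀ : IsEulerSystem a d i N (fun _ => 1) ⊤ B₀) :
    (∀ η : ℝ, 0 < η → ∀ᶠ ε : ℝ in 𝓝[>] 0, ∑ k, (size i (B k) ε - size i B₀ ε) ^ 2 ≤
      (((Nat.card Γ - 1) * N ^ 2 : ℕ) : ℝ) + η) ∧
    ∀ (m : κ → ℤ) (m₀ : ℤ), (∀ k, HasOrder i (B k) (m k)) → HasOrder i B₀ m₀ →
      ∑ k, (m k - m₀) ^ 2 ≤ (((Nat.card Γ - 1) * N ^ 2 : ℕ) : ℤ) :=
  disjointForms hi hξ hdis hB hB₀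

end Pool.Agent.Results.MP_2b9663_nt.DisjointForms
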