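import Pool.Agent.K4H20.FM.Main

/-!
# One finite extension governs the vanishing at the edge for all forms of a variety

`X` is a smooth projective variety over a number field `K` (for example `K = ℚ`; `X` may be
disconnected), `i` an integer and `s₀ = i/2 + 1`.  Let `Γ` be any finite group of automorphisms of `X`
over the algebraic closure, stable under the Galois group.  The theorem is about the order at `s₀` of
`L(H^i(X_ξ), s)` for all the forms `X_ξ` of `X` given by the cocycles `ξ` of the Galois group with values
in `Γ`: the twists `w^m = c f(x)` of a superelliptic variety, all twists of a curve of genus at least two,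
or of any variety with a finite group of automorphisms, the products of conjugate varieties `X^σ`
permuted by the Galois group (restrictions of scalars), and so on.  Nothing is assumed about the
automorphy of `H^i(X)`.  The definitions are in `Pool.Agent.K4H20.FM.Defs` and
`Pool.Agent.W353.EF.Defs`.
-/

set_option autoImplicit false

namespace Pool.Agent.Results.MP_2b9663_nt.FormsGoverned

open NumberField IsDedekindDomain Filter Topology Polynomial
open Pool.Agent.W353.EF (size HasOrder)
open Pool.Agent.K4H20.FM

/-- **One finite extension governs the vanishing at the edge for all forms.**  Let `X` be a projective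
variety of dimension `d` over a number field `K`, `0 ≤ i ≤ 2d`, `N` the `i`-th Betti number, `Γ` a finite
group of automorphisms of `X` over the algebraic closure of `K`, stable under the Galois group, and `K_Γ`
the smallest extension over which they are defined, of degree `#(image of α)`.

For every `k ≥ 1` there is a finite Galois extension `M ⊇ K_Γ` of `K` of degree at most
`[K_Γ : K] #Γ ^ ((#Γ - 1) (k N)²)` with the following properties, for all continuous cocycles `ξ` of the
Galois group of `K` with values in `Γ`, that is, for all forms `X_ξ` of `X` given by `Γ`.  Let `Δ` be the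
image under `ξ` of the Galois group of `M`.
* The quotients `log |L(s₀ + ε)| / log(1/ε)` for `L(H^i(X_ξ), s)` and for `L(H^i(X_ξ / Δ), s)` differ by
less than `1 / k` for arbitrarily small `ε > 0` (no continuation is assumed here).
* If both functions have meromorphic continuations to a neighbourhood of `s₀`, then they have the same
order at `s₀`.
* There are only finitely many functions `L(H^i(X_ξ / Δ), s)`, for all `ξ` together.
* If `H^i(X / Γ) = 0` (that is, `L(H^i(X / Γ), s) = 1`), then for all `ξ` with `Δ = Γ` the function
`L(H^i(X_ξ), s)` has order `0` at `s₀`, if it has a meromorphic continuation: there is no zero. -/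
theorem result (K : Type) [Field K] [NumberField K] (n : ℕ) (X : Set (MvPolynomial (Fin n) (𝓞 K)))
    (Γ : Type) [Group Γ] [Finite Γ] (a : AutGroup X Γ) (d i N : ℕ) (hi : i ≤ 2 * d) (k : ℕ)
    (hk : 1 ≤ k) :
    ∃ M : IntermediateField K (AlgebraicClosure K), FiniteDimensional K M ∧ IsGalois K M ∧
      (∀ σ ∈ M.fixingSubgroup, a.α σ = 1) ∧
      Module.finrank K M ≤
        Nat.card a.α.range * Nat.card Γ ^ ((Nat.card Γ - 1) * (k * N) ^ 2) ∧
      (∀ ξ, IsCocycle a ξ → ∀ B B' : HeightOneSpectrum (𝓞 K) → ℂ[X],
        IsEulerSystem a d i N ξ ⊥ B → IsEulerSystem a d i N ξ (image ξ M) B' →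
        (∃ᶠ ε : ℝ in 𝓝[>] 0, |size i B ε - size i B' ε| < 1 / k) ∧
        ∀ m m' : ℤ, HasOrder i B m → HasOrder i B' m' → m = m') ∧
      {P | ∃ ξ, IsCocycle a ξ ∧ P = IsEulerSystem a d i N ξ (image ξ M)}.Finite ∧
      (∀ ξ, IsCocycle a ξ → image ξ M = ⊤ → IsEulerSystem a d i N ξ ⊤ (fun _ => 1) →
        ∀ B, IsEulerSystem a d i N ξ ⊥ B → ∀ m : ℤ, HasOrder i B m → m = 0) :=
  governed a hi N hk

end Pool.Agent.Results.MP_2b9663_nt.FormsGoverned
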