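import Pool.Agent.K4H65.EP.Sign

set_option autoImplicit false

namespace Pool.Agent.Results.MP_2b9663_nt.OddDimensional

open NumberField Pool.Agent.K4H65.EP

/-- Let `Y_1, …, Y_r` be smooth projective varieties over a number field `K` with signed cohomology
(`IsSigned Y d h μ`).  For `h = 1` this means: at almost all primes the traces of Frobenius on
`H^k(Y_s)`, `k` even, are at least `μ_s(k) q^{k/2} ≥ 0`, and its traces on all `H^k(Y_s)`, `k` odd, have
the same sign.  For `h = 2` it means: the cohomology of odd degree is zero, the traces on `H^k(Y_s)`,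
`4 ∣ k`, are at least `μ_s(k) q^{k/2}`, and the other traces have the same sign.

Then for all products `Y^n` of powers `Y_s^{n_s}` and all `i` divisible by `2 h`: if
`L(H^i(Y^n), s)` has a meromorphic continuation to a neighbourhood of the edge point `i/2 + 1`, then
it does not vanish there, and its order is at most minus the coefficient of `z^i` in
`∏_s (∑_{2h ∣ k} μ_s(k) z^k)^{n_s}`.

Examples with `r = 1`, `h = 1` (all powers `X^n`, all even `i`): all curves; the varieties of odd
dimension `d` with `H^k = 0` for odd `k ≠ d` and `H^k` spanned by classes of algebraic cycles over `K`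
for even `k`, such as all complete intersections of odd dimension; all surfaces whose Picard number
`ρ` over `K` is at least `b_2/2` (here `μ(2) = 2ρ - b_2`, and `H^1`, `H^3` have the same normalised
trace), such as K3 surfaces with `ρ ≥ 11` and abelian surfaces with `ρ ≥ 3`; all threefolds with
`b_1 = 0` and `ρ ≥ b_2/2`.  For `h = 2` (all powers `X^n`, all `i` divisible by `4`): all surfaces
with `b_1 = 0`. -/
theorem result {K : Type} [Field K] [NumberField K] {r : ℕ} {a : Fin r → ℕ}
    (Y : (s : Fin r) → Set (MvPolynomial (Fin (a s)) (𝓞 K))) (d : Fin r → ℕ) (h : ℕ) (hh : 0 < h)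
    (μ : Fin r → ℕ → ℕ) (hY : IsSigned Y d h μ) (n : Fin r → ℕ) (i : ℕ) (hi : 2 * h ∣ i) (m : ℤ)
    (H : Ord Y d n ((i : ℤ) - dim d n) m) : m ≤ -((Lower d n h μ).coeff i : ℤ) :=
  main_sign hh hY hi H

end Pool.Agent.Results.MP_2b9663_nt.OddDimensional
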